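import Pool.Agent.W262.RK.Stm

set_option autoImplicit false

namespace Pool.Agent.W505.RK

open Pool.Agent.W262.RK

theorem rkb : RKB := by
  classical
  intro G _ hG N T hT hcov
  have : Module.Finite ℤ G := Module.Finite.iff_addGroup_fg.mpr hG
  let M := G ⧸ Submodule.torsion ℤ G
  have hr : Module.finrank ℤ M = Module.finrank ℤ G :=
    finrank_quotient_eq_of_le_torsion le_rfl
  rw [← hr]
  have : Module.Finite ℤ M := inferInstance
  have : Module.Free ℤ M := inferInstance
  let r := Module.finrank ℤ M
  let b : Module.Basis (Fin r) ℤ M := Module.finBasis ℤ M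
  let φ : G → (Fin r → ZMod 2) := fun g i =>
    ((b.repr ((Submodule.torsion ℤ G).mkQ g) i : ℤ) : ZMod 2)
  have hφadd : ∀ g h, φ (g + h) = φ g + φ h := by
    intro g h
    ext i
    simp [φ]
  have hφsurj : Function.Surjective φ := by
    intro v
    obtain ⟨g, hg⟩ := (Submodule.torsion ℤ G).mkQ_surjective
      (b.equivFun.symm (fun i => ((v i).val : ℤ)))
    refine ⟨g, ?_⟩
    ext i
    simp only [φ, hg]
    rw [← Module.Basis.equivFun_apply, LinearEquiv.apply_symm_apply]
    simp
  have hcard : Fintype.card (Fin r → ZMod 2) ≤ T.card := by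
    rw [← Finset.card_univ]
    refine Finset.card_le_card_of_surjOn φ ?_
    intro v _
    obtain ⟨g, rfl⟩ := hφsurj v
    obtain ⟨t, ht, q, rfl⟩ := hcov g
    refine ⟨t, ht, ?_⟩
    rw [hφadd, hφadd]
    ext i
    have : φ q i + φ q i = 0 := CharTwo.add_self_eq_zero _
    simp [this]
  rw [Fintype.card_fun, ZMod.card, Fintype.card_fin] at hcard
  exact hcard.trans hT

end Pool.Agent.W505.RK
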