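import Pool.Agent.W262.RK.Stm
import Pool.Agent.H591R2.Char

set_option autoImplicit false

namespace Pool.Agent.W505.RK

open Finset Pool.Agent.W262.RK

theorem abs_Jr_le_one (a : ℤ) (n : ℕ) : |Jr a n| ≤ 1 := by
  unfold Jr
  rcases jacobiSym.trichotomy a n with h | h | h <;> rw [h] <;> simp

theorem partial_sum_mul_real {d d' : ℕ} (hd : Odd d) (hd' : Odd d') (hs : Squarefree d)
    (hs' : Squarefree d') (hne : d ≠ d') (x : ℕ) :
    |∑ n ∈ range x, Jr n d * Jr n d'| ≤ (d : ℝ) * d' := by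
  have h := Pool.Agent.H591R2.partial_sum_mul hd hd' hs hs' hne x
  have h2 : ((|∑ n ∈ range x, jacobiSym n d * jacobiSym n d'| : ℤ) : ℝ) ≤ (((d : ℤ) * d' : ℤ) : ℝ) := by
    exact_mod_cast h
  unfold Jr
  push_cast at h2
  exact h2

theorem ls : LS := by
  intro D x Y c hD
  set S : ℕ → ℝ := fun d => ∑ l ∈ range x, c l * Jr l d with hS
  set T : ℝ := ∑ d ∈ D, S d ^ 2 with hT
  set g : ℕ → ℝ := fun n => ∑ d ∈ D, S d * Jr n d with hg
  have hT0 : 0 ≤ T := sum_nonneg fun d _ => sq_nonneg _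
  have hc0 : 0 ≤ ∑ l ∈ range x, c l ^ 2 := sum_nonneg fun d _ => sq_nonneg _
  have h1 : T = ∑ q ∈ range x, c q * g q := by
    rw [hT, hg]
    simp only [mul_sum]
    rw [sum_comm]
    apply sum_congr rfl
    intro d _
    have : ∀ q ∈ range x, c q * (S d * Jr q d) = S d * (c q * Jr q d) := fun q _ => by ring
    rw [sum_congr rfl this, ← mul_sum, pow_two]
  have h2 : T ^ 2 ≤ (∑ l ∈ range x, c l ^ 2) * ∑ n ∈ range x, g n ^ 2 := by
    rw [h1]
    exact sum_mul_sq_le_sq_mul_sq _ _ _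
  have h4 : ∑ n ∈ range x, g n ^ 2 = ∑ d ∈ D, ∑ d' ∈ D, S d * S d' *
      ∑ n ∈ range x, Jr n d * Jr n d' := by
    have : ∀ n, g n ^ 2 = ∑ d ∈ D, ∑ d' ∈ D, S d * S d' * (Jr n d * Jr n d') := by
      intro n
      rw [pow_two, hg]
      simp only
      rw [sum_mul_sum]
      apply sum_congr rfl; intro d _
      apply sum_congr rfl; intro d' _
      ring
    simp_rw [this]
    rw [sum_comm]
    apply sum_congr rfl; intro d _
    rw [sum_comm]
    apply sum_congr rfl; intro d' _
    rw [← mul_sum]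
  have h5 : ∑ n ∈ range x, g n ^ 2 ≤ ((x : ℝ) + D.card * (Y : ℝ) ^ 2) * T := by
    rw [h4]
    have h6 : ∀ d ∈ D, ∀ d' ∈ D, S d * S d' * ∑ n ∈ range x, Jr n d * Jr n d'
        ≤ (if d = d' then S d ^ 2 * x else 0) + |S d| * |S d'| * (Y : ℝ) ^ 2 := by
      intro d hd d' hd'
      by_cases h : d = d'
      · subst h
        rw [if_pos rfl]
        have h7 : ∑ n ∈ range x, Jr n d * Jr n d ≤ x := by
          calc ∑ n ∈ range x, Jr n d * Jr n d ≤ ∑ n ∈ range x, (1 : ℝ) := by
                apply sum_le_sum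
                intro n _
                have := abs_Jr_le_one n d
                nlinarith [abs_le.mp this]
            _ = x := by simp
        have h8 : S d * S d * ∑ n ∈ range x, Jr n d * Jr n d ≤ S d ^ 2 * x := by
          rw [← pow_two]
          exact mul_le_mul_of_nonneg_left h7 (sq_nonneg _)
        have h9 : 0 ≤ |S d| * |S d| * (Y : ℝ) ^ 2 := by positivity
        linarith
      · rw [if_neg h, zero_add]
        have h7 := partial_sum_mul_real (hD d hd).1 (hD d' hd').1 (hD d hd).2.1 (hD d' hd').2.1 h x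
        have h8 : ((d : ℝ) * d') ≤ (Y : ℝ) ^ 2 := by
          have := Nat.mul_le_mul (hD d hd).2.2 (hD d' hd').2.2
          rw [pow_two]
          exact_mod_cast this
        calc S d * S d' * ∑ n ∈ range x, Jr n d * Jr n d'
            ≤ |S d * S d' * ∑ n ∈ range x, Jr n d * Jr n d'| := le_abs_self _
          _ = |S d| * |S d'| * |∑ n ∈ range x, Jr n d * Jr n d'| := by
              rw [abs_mul, abs_mul]
          _ ≤ |S d| * |S d'| * (Y : ℝ) ^ 2 := by
              apply mul_le_mul_of_nonneg_left (h7.trans h8) (by positivity)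
    calc ∑ d ∈ D, ∑ d' ∈ D, S d * S d' * ∑ n ∈ range x, Jr n d * Jr n d'
        ≤ ∑ d ∈ D, ∑ d' ∈ D, ((if d = d' then S d ^ 2 * x else 0) + |S d| * |S d'| * (Y : ℝ) ^ 2) :=
          sum_le_sum fun d hd => sum_le_sum fun d' hd' => h6 d hd d' hd'
      _ = T * x + (∑ d ∈ D, |S d|) ^ 2 * (Y : ℝ) ^ 2 := by
          simp_rw [sum_add_distrib]
          congr 1
          · rw [hT, sum_mul]
            apply sum_congr rfl
            intro d hd
            rw [sum_ite_eq, if_pos hd]
          · have h20 : (∑ d ∈ D, |S d|) ^ 2 = ∑ d ∈ D, ∑ d' ∈ D, |S d| * |S d'| := by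
              rw [pow_two, sum_mul_sum]
            rw [h20, sum_mul]
            apply sum_congr rfl; intro d _
            rw [sum_mul]
      _ ≤ T * x + (D.card * T) * (Y : ℝ) ^ 2 := by
          have : (∑ d ∈ D, |S d|) ^ 2 ≤ D.card * T := by
            have h10 : (∑ d ∈ D, |S d|) ^ 2 ≤ D.card * ∑ d ∈ D, |S d| ^ 2 :=
              sq_sum_le_card_mul_sum_sq
            simpa [sq_abs] using h10
          have h11 : (0 : ℝ) ≤ (Y : ℝ) ^ 2 := by positivity
          nlinarith
      _ = ((x : ℝ) + D.card * (Y : ℝ) ^ 2) * T := by ring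
  rcases hT0.lt_or_eq with h | h
  · have h12 : T * T ≤ (((x : ℝ) + D.card * (Y : ℝ) ^ 2) * ∑ l ∈ range x, c l ^ 2) * T := by
      calc T * T = T ^ 2 := by ring
        _ ≤ (∑ l ∈ range x, c l ^ 2) * ∑ n ∈ range x, g n ^ 2 := h2
        _ ≤ (∑ l ∈ range x, c l ^ 2) * (((x : ℝ) + D.card * (Y : ℝ) ^ 2) * T) :=
            mul_le_mul_of_nonneg_left h5 hc0
        _ = _ := by ring
    exact le_of_mul_le_mul_right h12 h
  · rw [← h]; positivity

end Pool.Agent.W505.RK
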